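import Mathlib

/-!
# Dyson's constant term identity (Good's proof)
-/

set_option autoImplicit false

namespace Pool.Agent.W284.TF.Dyson

open MvPolynomial Finset

section

set_option linter.unusedSectionVars false

variable {ι : Type*} [DecidableEq ι]

/-- the degree in the variable `j0` is at most `k` -/
def DB (j0 : ι) (k : ℕ) (p : MvPolynomial ι ℤ) : Prop := ∀ m : ι →₀ ℕ, k < m j0 → coeff m p = 0

lemma DB_one (j0 : ι) : DB j0 0 (1 : MvPolynomial ι ℤ) := by
  intro m hm
  rw [coeff_one, if_neg]
  rintro rfl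
  simp at hm

lemma DB_X (j0 : ι) (k : ℕ) (p : MvPolynomial ι ℤ) (h : DB j0 k p) : DB j0 (k + 1) (p * X j0) := by
  intro m hm
  rw [coeff_mul_X']
  split_ifs with h1
  · apply h
    simp only [Finsupp.coe_tsub, Pi.sub_apply, Finsupp.single_eq_same]
    omega
  · rfl

lemma DB_X_ne (j0 i : ι) (hi : i ≠ j0) (k : ℕ) (p : MvPolynomial ι ℤ) (h : DB j0 k p) :
    DB j0 k (p * X i) := by
  intro m hm
  rw [coeff_mul_X']
  split_ifs with h1
  · apply h
    simp only [Finsupp.coe_tsub, Pi.sub_apply, Finsupp.single_apply, if_neg hi]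
    omega
  · rfl

lemma DB_mono (j0 : ι) (k l : ℕ) (hkl : k ≤ l) (p : MvPolynomial ι ℤ) (h : DB j0 k p) :
    DB j0 l p := fun m hm => h m (by omega)

lemma DB_sub (j0 : ι) (k : ℕ) (p q : MvPolynomial ι ℤ) (h : DB j0 k p) (h' : DB j0 k q) :
    DB j0 k (p - q) := by
  intro m hm
  rw [coeff_sub, h m hm, h' m hm, sub_zero]

lemma DB_diff (j0 i j : ι) (hi : i ≠ j0) (hj : j ≠ j0) (k : ℕ) (p : MvPolynomial ι ℤ)
    (h : DB j0 k p) : DB j0 k (p * (X j - X i)) := by
  rw [mul_sub]
  exact DB_sub _ _ _ _ (DB_X_ne _ _ hj _ _ h) (DB_X_ne _ _ hi _ _ h)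

lemma DB_diff_pow (j0 i j : ι) (hi : i ≠ j0) (hj : j ≠ j0) (k n : ℕ) (p : MvPolynomial ι ℤ)
    (h : DB j0 k p) : DB j0 k (p * (X j - X i) ^ n) := by
  induction n with
  | zero => simpa using h
  | succ n ih =>
    rw [pow_succ, ← mul_assoc]
    exact DB_diff _ _ _ hi hj _ _ ih

lemma DB_prod (j0 i : ι) (hi : i ≠ j0) (k n : ℕ) (t : Finset ι) (ht : j0 ∉ t)
    (p : MvPolynomial ι ℤ) (h : DB j0 k p) : DB j0 k (p * ∏ j ∈ t, (X j - X i) ^ n) := by
  induction t using Finset.induction_on with
  | empty => simpa using h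
  | insert j t hj ih =>
    rw [Finset.mem_insert, not_or] at ht
    rw [Finset.prod_insert hj, mul_comm (_ ^ _) (∏ _ ∈ _, _), ← mul_assoc]
    exact DB_diff_pow _ _ _ hi (Ne.symm ht.1) _ _ _ (ih ht.2)

/-- leading coefficient with respect to `j0` -/
lemma top_one (j0 i : ι) (hi : i ≠ j0) (k : ℕ) (p : MvPolynomial ι ℤ) (h : DB j0 k p)
    (m : ι →₀ ℕ) (hm : m j0 = k) :
    DB j0 (k + 1) (p * (X j0 - X i)) ∧
      coeff (m + Finsupp.single j0 1) (p * (X j0 - X i)) = coeff m p := by
  refine ⟨?_, ?_⟩
  · rw [mul_sub]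
    exact DB_sub _ _ _ _ (DB_X _ _ _ h) (DB_mono _ _ _ (by omega) _ (DB_X_ne _ _ hi _ _ h))
  · rw [mul_sub, coeff_sub, coeff_mul_X, DB_X_ne j0 i hi k p h, sub_zero]
    simp [hm]

lemma top_pow (j0 i : ι) (hi : i ≠ j0) (k n : ℕ) (p : MvPolynomial ι ℤ) (h : DB j0 k p)
    (m : ι →₀ ℕ) (hm : m j0 = k) :
    DB j0 (k + n) (p * (X j0 - X i) ^ n) ∧
      coeff (m + Finsupp.single j0 n) (p * (X j0 - X i) ^ n) = coeff m p := by
  induction n with
  | zero => simpa using h
  | succ n ih =>
    have := top_one j0 i hi (k + n) (p * (X j0 - X i) ^ n) ih.1 (m + Finsupp.single j0 n)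
      (by simp [hm])
    rw [pow_succ, ← mul_assoc, Finsupp.single_add, ← add_assoc m]
    exact ⟨this.1, this.2.trans ih.2⟩

lemma top_prod (a : ι → ℕ) (j0 : ι) (t : Finset ι) (ht : j0 ∉ t) (k : ℕ) (p : MvPolynomial ι ℤ)
    (h : DB j0 k p) (m : ι →₀ ℕ) (hm : m j0 = k) :
    DB j0 (k + ∑ i ∈ t, a i) (p * ∏ i ∈ t, (X j0 - X i) ^ a i) ∧
      coeff (m + Finsupp.single j0 (∑ i ∈ t, a i)) (p * ∏ i ∈ t, (X j0 - X i) ^ a i)
        = coeff m p := by
  induction t using Finset.induction_on with
  | empty => simpa using h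
  | insert j t hj ih =>
    rw [Finset.mem_insert, not_or] at ht
    obtain ⟨h1, h2⟩ := ih ht.2
    have := top_pow j0 j (Ne.symm ht.1) _ (a j) _ h1 (m + Finsupp.single j0 (∑ i ∈ t, a i))
      (by simp [hm])
    rw [Finset.prod_insert hj, Finset.sum_insert hj, mul_comm ((X j0 - X j) ^ a j) _, ← mul_assoc,
      add_comm (a j), ← add_assoc, Finsupp.single_add, ← add_assoc]
    exact ⟨this.1, this.2.trans h2⟩

/-- the Dyson product -/
noncomputable def Q (s : Finset ι) (a : ι → ℕ) : MvPolynomial ι ℤ :=
  ∏ i ∈ s, ∏ j ∈ s.erase i, (X j - X i) ^ a i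

lemma DB_Q (j0 : ι) (s : Finset ι) (hs : j0 ∉ s) (a : ι → ℕ) : DB j0 0 (Q s a) := by
  have key : ∀ t : Finset ι, t ⊆ s → DB j0 0 (∏ i ∈ t, ∏ j ∈ s.erase i,
      (X j - X i : MvPolynomial ι ℤ) ^ a i) := by
    intro t
    induction t using Finset.induction_on with
    | empty => intro _; simpa using DB_one j0
    | insert i t hi ih =>
      intro hsub
      rw [Finset.prod_insert hi, mul_comm]
      refine DB_prod j0 i ?_ 0 (a i) _ ?_ _ (ih fun x hx => hsub (Finset.mem_insert_of_mem hx))
      · rintro rfl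
        exact hs (hsub (Finset.mem_insert_self _ _))
      · intro h
        exact hs (Finset.mem_of_mem_erase h)
  exact key s (Finset.Subset.refl s)

lemma Q_erase (s : Finset ι) (a : ι → ℕ) (j0 : ι) (h0 : j0 ∈ s) (ha : a j0 = 0) :
    Q s a = Q (s.erase j0) a * ∏ i ∈ s.erase j0, (X j0 - X i) ^ a i := by
  unfold Q
  rw [← Finset.mul_prod_erase s _ h0, ha]
  simp only [pow_zero, Finset.prod_const_one, one_mul]
  rw [← Finset.prod_mul_distrib]
  refine Finset.prod_congr rfl fun i hi => ?_
  have hne : i ≠ j0 := Finset.ne_of_mem_erase hi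
  rw [← Finset.mul_prod_erase (s.erase i) _ (Finset.mem_erase.2 ⟨hne.symm, h0⟩), mul_comm]
  rw [Finset.erase_right_comm]

lemma Q_update (s : Finset ι) (a : ι → ℕ) (j : ι) (hj : j ∈ s) (ha : 1 ≤ a j) :
    Q s a = Q s (Function.update a j (a j - 1)) * ∏ i ∈ s.erase j, (X i - X j) := by
  unfold Q
  rw [← Finset.mul_prod_erase s _ hj, ← Finset.mul_prod_erase s _ hj]
  have h1 : ∏ i ∈ s.erase j, ∏ k ∈ s.erase i,
      (X k - X i : MvPolynomial ι ℤ) ^ (Function.update a j (a j - 1)) i
      = ∏ i ∈ s.erase j, ∏ k ∈ s.erase i, (X k - X i : MvPolynomial ι ℤ) ^ a i := by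
    refine Finset.prod_congr rfl fun i hi => ?_
    rw [Function.update_of_ne (Finset.ne_of_mem_erase hi)]
  rw [h1, Function.update_self]
  have h2 : ∏ k ∈ s.erase j, (X k - X j : MvPolynomial ι ℤ) ^ a j
      = (∏ k ∈ s.erase j, (X k - X j : MvPolynomial ι ℤ) ^ (a j - 1)) *
        ∏ i ∈ s.erase j, (X i - X j) := by
    rw [← Finset.prod_mul_distrib]
    refine Finset.prod_congr rfl fun i _ => ?_
    rw [← pow_succ]
    congr 1
    omega
  rw [h2]
  ring

/-- Lagrange interpolation -/
lemma lagr (s : Finset ι) (a : ι → ℕ) (hs : s.Nonempty) (ha : ∀ j ∈ s, 1 ≤ a j) :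
    Q s a = ∑ j ∈ s, Q s (Function.update a j (a j - 1)) * ∏ i ∈ s.erase j, X i := by
  let K := FractionRing (MvPolynomial ι ℤ)
  have hinj : Function.Injective (algebraMap (MvPolynomial ι ℤ) K) :=
    IsFractionRing.injective (MvPolynomial ι ℤ) K
  let v : ι → K := fun i => algebraMap (MvPolynomial ι ℤ) K (X i)
  have hv : Set.InjOn v s := by
    intro i _ j _ h
    exact X_injective (hinj h)
  have h1 := Lagrange.sum_basis hv hs
  have h2 := congrArg (Polynomial.eval 0) h1
  rw [Polynomial.eval_finsetSum, Polynomial.eval_one] at h2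
  have h3 : ∀ j ∈ s, Polynomial.eval 0 (Lagrange.basis s v j)
      * algebraMap (MvPolynomial ι ℤ) K (Q s a)
      = algebraMap (MvPolynomial ι ℤ) K
        (Q s (Function.update a j (a j - 1)) * ∏ i ∈ s.erase j, X i) := by
    intro j hj
    rw [Q_update s a j hj (ha j hj), Lagrange.basis, Polynomial.eval_prod]
    have h4 : ∀ i ∈ s.erase j, Polynomial.eval 0 (Lagrange.basisDivisor (v j) (v i))
        * (algebraMap (MvPolynomial ι ℤ) K (X i - X j)) = algebraMap (MvPolynomial ι ℤ) K (X i) := by
      intro i hi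
      have hij : i ≠ j := Finset.ne_of_mem_erase hi
      have hvne : v j - v i ≠ 0 := by
        intro h
        exact hij (X_injective (hinj (sub_eq_zero.mp h))).symm
      simp only [Lagrange.basisDivisor, Polynomial.eval_mul, Polynomial.eval_C, Polynomial.eval_sub,
        Polynomial.eval_X, map_sub]
      change (v j - v i)⁻¹ * (0 - v i) * (v i - v j) = v i
      have h6 : (v j - v i)⁻¹ * (0 - v i) * (v i - v j) = (v j - v i)⁻¹ * (v j - v i) * v i := by
        ring
      rw [h6, inv_mul_cancel₀ hvne, one_mul]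
    have h5 : (∏ i ∈ s.erase j, Polynomial.eval 0 (Lagrange.basisDivisor (v j) (v i)))
        * algebraMap (MvPolynomial ι ℤ) K (∏ i ∈ s.erase j, (X i - X j))
        = algebraMap (MvPolynomial ι ℤ) K (∏ i ∈ s.erase j, X i) := by
      rw [map_prod, map_prod, ← Finset.prod_mul_distrib]
      exact Finset.prod_congr rfl h4
    rw [map_mul, map_mul, ← h5]
    ring
  apply hinj
  rw [map_sum, ← Finset.sum_congr rfl h3, ← Finset.sum_mul, h2, one_mul]

/-- the exponent -/
noncomputable def ex (s : Finset ι) (a : ι → ℕ) : ι →₀ ℕ :=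
  ∑ j ∈ s, Finsupp.single j (∑ i ∈ s, a i - a j)

lemma ex_apply (s : Finset ι) (a : ι → ℕ) (k : ι) :
    ex s a k = if k ∈ s then ∑ i ∈ s, a i - a k else 0 := by
  unfold ex
  rw [Finsupp.finsetSum_apply]
  simp only [Finsupp.single_apply]
  rw [Finset.sum_ite_eq' s k (fun j => ∑ i ∈ s, a i - a j)]

theorem dyson : ∀ (n : ℕ) (s : Finset ι) (a : ι → ℕ), ∑ i ∈ s, a i + s.card = n →
    coeff (ex s a) (Q s a) * ∏ i ∈ s, ((a i).factorial : ℤ) = ((∑ i ∈ s, a i).factorial : ℤ) := by
  intro n
  induction n using Nat.strong_induction_on with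
  | _ n IH =>
    intro s a hn
    rcases s.eq_empty_or_nonempty with hs | hs
    · subst hs
      simp [ex, Q]
    by_cases hz : ∃ j0 ∈ s, a j0 = 0
    · obtain ⟨j0, hj0, ha0⟩ := hz
      have hsum : ∑ i ∈ s.erase j0, a i = ∑ i ∈ s, a i := by
        rw [← Finset.add_sum_erase s a hj0, ha0, zero_add]
      have hcard := Finset.card_erase_of_mem hj0
      have hpos : 0 < s.card := Finset.card_pos.2 hs
      have ih := IH (∑ i ∈ s.erase j0, a i + (s.erase j0).card) (by rw [hsum, hcard]; omega)
        (s.erase j0) a rfl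
      have hnot : j0 ∉ s.erase j0 := Finset.notMem_erase j0 s
      have hex : ex s a = ex (s.erase j0) a + Finsupp.single j0 (∑ i ∈ s.erase j0, a i) := by
        ext k
        rw [Finsupp.add_apply, ex_apply, ex_apply, Finsupp.single_apply, hsum]
        by_cases hk : k = j0
        · subst hk
          simp [hj0, ha0]
        · simp [hk, Ne.symm hk]
      have htop := (top_prod a j0 (s.erase j0) hnot 0 (Q (s.erase j0) a)
        (DB_Q j0 _ hnot a) (ex (s.erase j0) a) (by rw [ex_apply, if_neg hnot])).2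
      rw [Q_erase s a j0 hj0 ha0, hex, htop, ← Finset.mul_prod_erase s _ hj0, ha0]
      simp only [Nat.factorial_zero, Nat.cast_one, one_mul]
      rw [ih, hsum]
    · push Not at hz
      have ha : ∀ j ∈ s, 1 ≤ a j := fun j hj => Nat.one_le_iff_ne_zero.2 (hz j hj)
      set A := ∑ i ∈ s, a i with hA
      have hAs : ∀ j ∈ s, a j ≤ A := fun j hj => Finset.single_le_sum (fun _ _ => Nat.zero_le _) hj
      have hupd : ∀ j ∈ s, ∑ i ∈ s, (Function.update a j (a j - 1)) i = A - 1 := by
        intro j hj
        have h1 := Finset.add_sum_erase s (Function.update a j (a j - 1)) hj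
        have h2 := Finset.add_sum_erase s a hj
        have h3 : ∑ i ∈ s.erase j, (Function.update a j (a j - 1)) i = ∑ i ∈ s.erase j, a i :=
          Finset.sum_congr rfl fun i hi => Function.update_of_ne (Finset.ne_of_mem_erase hi) _ _
        rw [Function.update_self, h3] at h1
        have := ha j hj
        omega
      obtain ⟨j1, hj1⟩ := hs
      have hApos : 1 ≤ A := (ha j1 hj1).trans (hAs j1 hj1)
      have hcoef : ∀ j ∈ s, coeff (ex s a) (Q s (Function.update a j (a j - 1)) *
          ∏ i ∈ s.erase j, X i) = coeff (ex s (Function.update a j (a j - 1)))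
            (Q s (Function.update a j (a j - 1))) := by
        intro j hj
        have hmon : (∏ i ∈ s.erase j, X i : MvPolynomial ι ℤ)
            = monomial (∑ i ∈ s.erase j, Finsupp.single i 1) 1 := by
          rw [monomial_sum_one]
          rfl
        have hex : ex s a = ex s (Function.update a j (a j - 1))
            + ∑ i ∈ s.erase j, Finsupp.single i 1 := by
          ext k
          rw [Finsupp.add_apply, ex_apply, ex_apply, hupd j hj, Finsupp.finsetSum_apply]
          simp only [Finsupp.single_apply]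
          rw [Finset.sum_ite_eq' (s.erase j) k (fun _ => 1)]
          by_cases hks : k ∈ s
          · by_cases hkj : k = j
            · subst hkj
              simp only [hks, if_true, Function.update_self, Finset.mem_erase, ne_eq,
                not_true_eq_false, false_and, if_false]
              have := ha k hks
              have := hAs k hks
              omega
            · simp only [hks, if_true, Function.update_of_ne hkj, Finset.mem_erase, ne_eq, hkj,
                not_false_eq_true, true_and]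
              have h1 : a k + a j ≤ A := by
                have h2 := Finset.add_sum_erase s a hks
                have h3 : a j ≤ ∑ i ∈ s.erase k, a i :=
                  Finset.single_le_sum (fun _ _ => Nat.zero_le _)
                    (Finset.mem_erase.2 ⟨Ne.symm hkj, hj⟩)
                omega
              have := ha j hj
              omega
          · simp [hks]
        rw [hmon, hex, coeff_mul_monomial, mul_one]
      have hfac : ∀ j ∈ s, ∏ i ∈ s, ((a i).factorial : ℤ)
          = (a j : ℤ) * ∏ i ∈ s, (((Function.update a j (a j - 1)) i).factorial : ℤ) := by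
        intro j hj
        rw [← Finset.mul_prod_erase s _ hj, ← Finset.mul_prod_erase s (fun i =>
          (((Function.update a j (a j - 1)) i).factorial : ℤ)) hj, Function.update_self]
        have h3 : ∏ i ∈ s.erase j, (((Function.update a j (a j - 1)) i).factorial : ℤ)
            = ∏ i ∈ s.erase j, ((a i).factorial : ℤ) :=
          Finset.prod_congr rfl fun i hi => by
            rw [Function.update_of_ne (Finset.ne_of_mem_erase hi)]
        rw [h3, ← mul_assoc]
        congr 1
        have h4 := Nat.mul_factorial_pred (Nat.one_le_iff_ne_zero.1 (ha j hj))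
        exact_mod_cast h4.symm
      have ih : ∀ j ∈ s, coeff (ex s (Function.update a j (a j - 1)))
            (Q s (Function.update a j (a j - 1)))
            * ∏ i ∈ s, (((Function.update a j (a j - 1)) i).factorial : ℤ)
            = ((A - 1).factorial : ℤ) := by
        intro j hj
        have := IH (∑ i ∈ s, (Function.update a j (a j - 1)) i + s.card)
          (by rw [hupd j hj]; omega) s (Function.update a j (a j - 1)) rfl
        rw [hupd j hj] at this
        exact this
      rw [lagr s a ⟨j1, hj1⟩ ha, coeff_sum, Finset.sum_mul]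
      have hterm : ∀ j ∈ s, coeff (ex s a) (Q s (Function.update a j (a j - 1)) *
          ∏ i ∈ s.erase j, X i) * ∏ i ∈ s, ((a i).factorial : ℤ)
          = (a j : ℤ) * ((A - 1).factorial : ℤ) := by
        intro j hj
        rw [hcoef j hj, hfac j hj, ← ih j hj]
        ring
      rw [Finset.sum_congr rfl hterm, ← Finset.sum_mul, ← Nat.cast_sum, ← hA]
      have h5 := Nat.mul_factorial_pred (Nat.one_le_iff_ne_zero.1 hApos)
      exact_mod_cast h5

end

theorem dys : ∀ n l : ℕ,
    MvPolynomial.coeff (Finsupp.equivFunOnFinite.symm (fun _ : Fin n => (n - 1) * l))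
      (∏ i : Fin n, ∏ j ∈ univ.erase i,
        (MvPolynomial.X j - MvPolynomial.X i : MvPolynomial (Fin n) ℤ) ^ l) *
      (l.factorial : ℤ) ^ n = ((n * l).factorial : ℤ) := by
  intro n l
  have h := dyson (∑ i ∈ (univ : Finset (Fin n)), (fun _ => l) i + (univ : Finset (Fin n)).card)
    univ (fun _ : Fin n => l) rfl
  have hex : ex univ (fun _ : Fin n => l)
      = Finsupp.equivFunOnFinite.symm (fun _ : Fin n => (n - 1) * l) := by
    ext k
    rw [ex_apply]
    simp [Nat.sub_mul]
  rw [hex] at h
  simpa [Q] using h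

end Pool.Agent.W284.TF.Dyson
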