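import Pool.Agent.W142.TF.Stm
import Pool.Agent.W284.TF.Dyson

namespace Pool.Agent.W284.TF

theorem s_dys : Pool.Agent.W142.TF.S_dys := Pool.Agent.W284.TF.Dyson.dys

end Pool.Agent.W284.TF
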